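import Pool.Agent.WIR.StmtsC

/-!
# Squad WIR, row FDC: Fourier decay of the word averages
-/

set_option autoImplicit false

namespace Pool.Agent.WIR.H24

open scoped BigOperators

theorem fdc (hT : TsyStmt) (hD : DecStmt) (hA : AdvStmt) : FdcStmt := by
  intro A
  have e0 : 0 < eps := by unfold eps; positivity
  have e1 : eps ≤ 1 / 2 := by unfold eps; norm_num
  obtain ⟨C, hC1, hC⟩ := hD (2 * eps ^ 2) A (by positivity) (by nlinarith)
  have h2A : (1 : ℝ) ≤ 2 ^ A := one_le_pow₀ (by norm_num)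
  refine ⟨C * 2 ^ A, by nlinarith, ?_⟩
  intro N t S ξ n l hξ ht hS
  have h1 := hA N t S ξ n 0 l ht hS (Nat.zero_le _)
  simp only [mul_zero, add_zero, Nat.sub_zero] at h1
  have h2 := hC ((N - t) / 2) (bk N t ξ ((N - t) / 2)) (Cor N t ξ ((N - t) / 2)) (siz N t ξ)
    (l + n) 0 l ((N - t) / 2) (hT N t ξ hξ ht) (Nat.zero_add _)
  refine h1.trans (h2.trans ?_)
  have h3 : ((N - t : ℕ) : ℝ) + 1 ≤ 2 * ((((N - t) / 2 : ℕ) : ℝ) + 1) := by
    have : (N - t) + 1 ≤ 2 * ((N - t) / 2 + 1) := by omega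
    exact_mod_cast this
  have h4 : (((N - t : ℕ) : ℝ) + 1) ^ A ≤ 2 ^ A * ((((N - t) / 2 : ℕ) : ℝ) + 1) ^ A := by
    rw [← mul_pow]
    exact pow_le_pow_left₀ (by positivity) h3 A
  rw [div_le_div_iff₀ (by positivity) (by positivity)]
  have hC0 : 0 ≤ C := by linarith
  calc C * (((N - t : ℕ) : ℝ) + 1) ^ A ≤ C * (2 ^ A * ((((N - t) / 2 : ℕ) : ℝ) + 1) ^ A) :=
        mul_le_mul_of_nonneg_left h4 hC0
    _ = C * 2 ^ A * ((((N - t) / 2 : ℕ) : ℝ) + 1) ^ A := by ring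

end Pool.Agent.WIR.H24
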