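import Pool.Agent.WIR.StmtsC

/-!
# Squad WIR, row GL2: the square mean of the good words
-/

set_option autoImplicit false

namespace Pool.Agent.WIR.H24

open scoped BigOperators

theorem gl2 (hP : PlsStmt) (hI : InjStmt) : Gl2Stmt := by
  classical
  intro N L t 𝒢 hG
  have hinj : Set.InjOn (FO N) (𝒢 : Set (Finset ℕ)) := by
    intro O hO O' hO' h
    have hO := hG O hO
    have hO' := hG O' hO'
    have h1 := hI.1 N L O hO.1
    have h2 := hI.1 N L O' hO'.1
    rw [h, h2] at h1
    have h3 : nO L O' = nO L O := by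
      have h4 := (ZMod.natCast_eq_natCast_iff' _ _ _).mp h1
      rwa [Nat.mod_eq_of_lt hO'.2.2, Nat.mod_eq_of_lt hO.2.2] at h4
    exact hI.2 L O O' hO.1 hO'.1 (hO.2.1.trans hO'.2.1.symm) h3.symm
  let f : ZMod (3 ^ N) → ℝ := fun x => if x ∈ 𝒢.image (FO N) then 1 else 0
  have hft : ∀ ξ, ft N f ξ = ∑ O ∈ 𝒢, ZMod.stdAddChar (-(ξ * FO N O)) := by
    intro ξ
    have h1 : ft N f ξ = ∑ x ∈ 𝒢.image (FO N), ZMod.stdAddChar (-(ξ * x)) := by
      unfold ft
      rw [← Finset.sum_filter_add_sum_filter_not Finset.univ (fun x => x ∈ 𝒢.image (FO N))]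
      rw [Finset.filter_mem_eq_inter, Finset.univ_inter]
      have h2 : ∑ x ∈ Finset.univ.filter (fun x => ¬ x ∈ 𝒢.image (FO N)),
          (f x : ℂ) * ZMod.stdAddChar (-(ξ * x)) = 0 := by
        apply Finset.sum_eq_zero
        intro x hx
        have hx' : ¬ x ∈ 𝒢.image (FO N) := (Finset.mem_filter.mp hx).2
        simp only [f, if_neg hx', Complex.ofReal_zero, zero_mul]
      rw [h2, add_zero]
      apply Finset.sum_congr rfl
      intro x hx
      simp only [f, if_pos hx, Complex.ofReal_one, one_mul]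
    rw [h1, Finset.sum_image hinj]
  have hsq : ∑ x, f x ^ 2 = ((𝒢.image (FO N)).card : ℝ) := by
    have h1 : ∀ x, f x ^ 2 = if x ∈ 𝒢.image (FO N) then (1 : ℝ) else 0 := by
      intro x
      by_cases hx : x ∈ 𝒢.image (FO N)
      · simp only [f, if_pos hx, one_pow]
      · simp only [f, if_neg hx]
        norm_num
    rw [Finset.sum_congr rfl (fun x _ => h1 x), Finset.sum_ite_mem, Finset.univ_inter]
    simp
  have hcard : ((𝒢.image (FO N)).card : ℝ) ≤ 2 ^ L := by
    have h1 : (𝒢.image (FO N)).card ≤ 2 ^ L := by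
      refine Finset.card_image_le.trans ?_
      have h2 : 𝒢 ⊆ (Finset.Icc 1 L).powerset := by
        intro O hO
        exact Finset.mem_powerset.mpr (hG O hO).1
      refine (Finset.card_le_card h2).trans ?_
      rw [Finset.card_powerset]
      simp
    exact_mod_cast h1
  have hp := hP N f
  rw [hsq] at hp
  have h4 : ∑ ξ : ZMod (3 ^ N), ‖∑ O ∈ 𝒢, ZMod.stdAddChar (-(ξ * FO N O))‖ ^ 2 =
      ∑ ξ, ‖ft N f ξ‖ ^ 2 := Finset.sum_congr rfl (fun ξ _ => by rw [hft ξ])
  rw [h4, hp]
  exact mul_le_mul_of_nonneg_left hcard (by positivity)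

end Pool.Agent.WIR.H24
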